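import Mathlib

/-!
# The Delta-identity fails for generalized sharped cubic forms

Starting from the ordinary sharped cubic form `N₀ (x, y, z) = x y z` on `F × F × F` (with its usual
adjoint `#`), any symmetric bilinear form `Δ` with `Δ (·, c) = 0` gives a generalized sharped cubic
form `(N, Δ, #, c)` with `N r = N₀ r - Δ (r #, r)`; the Delta-identity then fails for
`Δ (r, q) = (r₀ - r₁) (q₀ - q₁)`.
-/

set_option autoImplicit false

namespace Pool.Agent.Results.MP_aa3754_al.DeltaFails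

variable {F V : Type*} [Field F] [AddCommGroup V] [Module F V]

/-- `N : V → F` is a cubic form: there is a map `(x, y) ↦ D y x` (written `N (x, y)` in the problem),
quadratic in `x` and linear in `y`, such that
`N (x + l y) = N (x) + l N (x, y) + l ^ 2 N (y, x) + l ^ 3 N (y)`. -/
def IsCubicForm (N : V → F) : Prop :=
  ∃ D : V →ₗ[F] QuadraticForm F V, ∀ (x y : V) (l : F),
    N (x + l • y) = N x + l * D y x + l ^ 2 * D x y + l ^ 3 * N y

/-- The complete linearization `N (v, u, w)` of `N`. -/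
def lin (N : V → F) (v u w : V) : F :=
  N (v + u + w) - N (v + u) - N (v + w) - N (u + w) + N u + N v + N w

/-- `T (r) = N (r, c, c) / 2`. -/
def T (N : V → F) (c r : V) : F := lin N r c c / 2

/-- `S (r, q) = N (r, q, c)`. -/
def S (N : V → F) (c r q : V) : F := lin N r q c

/-- The form `(r, q) = T (r) T (q) - S (r, q) - Δ (r, q)`. -/
def form (N : V → F) (Δ : LinearMap.BilinForm F V) (c r q : V) : F :=
  T N c r * T N c q - S N c r q - Δ r q

/-- The sharp product `r # q = (r + q)^# - r^# - q^#`. -/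
def sprod (sh : QuadraticMap F V V) (r q : V) : V := sh (r + q) - sh r - sh q

/-- `(N, Δ, #, c)` is a generalized sharped cubic form. -/
structure IsGSCF (N : V → F) (Δ : LinearMap.BilinForm F V) (sh : QuadraticMap F V V) (c : V) :
    Prop where
  /-- `N` is a cubic form. -/
  cubic : IsCubicForm N
  /-- `N (c) = 1`. -/
  norm_c : N c = 1
  /-- `Δ` is symmetric. -/
  symm : ∀ r q, Δ r q = Δ q r
  /-- `Δ (r, c) = 0` for all `r`. -/
  delta_c : ∀ r, Δ r c = 0
  /-- `(r # q, r) + (r^#, q) = 3 N (r, q)` with `N (r, q) = N (r, r, q) / 2`. -/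
  trace_sharp : ∀ r q, form N Δ c (sprod sh r q) r + form N Δ c (sh r) q = 3 * (lin N r r q / 2)
  /-- `(r^#)^# = (N (r) + Δ (r^#, r)) r`. -/
  sharp_sharp : ∀ r, sh (sh r) = (N r + Δ (sh r) r) • r
  /-- `c # r = T (r) c - r`. -/
  c_sharp : ∀ r, sprod sh c r = T N c r • c - r

/-- The identity `Δ (r # q, s) - Δ (r, q # s) = (T (s) Δ (r, q) - T (r) Δ (q, s)) / 3`. -/
def DeltaIdentity (N : V → F) (Δ : LinearMap.BilinForm F V) (sh : QuadraticMap F V V) (c : V) :
    Prop :=
  ∀ r q s : V, Δ (sprod sh r q) s - Δ r (sprod sh q s) =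
    1 / 3 * (T N c s * Δ r q - T N c r * Δ q s)

section example_

variable (F)

/-- The three coordinate forms on `F × F × F`. -/
def e₀ : F × F × F →ₗ[F] F := LinearMap.fst F F (F × F)

/-- The second coordinate. -/
def e₁ : F × F × F →ₗ[F] F := (LinearMap.fst F F F).comp (LinearMap.snd F F (F × F))

/-- The third coordinate. -/
def e₂ : F × F × F →ₗ[F] F := (LinearMap.snd F F F).comp (LinearMap.snd F F (F × F))

theorem e₀_apply (r : F × F × F) : e₀ F r = r.1 := rfl

theorem e₁_apply (r : F × F × F) : e₁ F r = r.2.1 := rfl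

theorem e₂_apply (r : F × F × F) : e₂ F r = r.2.2 := rfl

/-- The cubic form `x y z + z (x - y) ^ 2`. -/
def N₁ (r : F × F × F) : F := r.1 * r.2.1 * r.2.2 + r.2.2 * (r.1 - r.2.1) ^ 2

/-- The bilinear form `Δ (r, q) = (r₀ - r₁) (q₀ - q₁)`. -/
def Δ₁ : LinearMap.BilinForm F (F × F × F) :=
  LinearMap.BilinForm.linMulLin (e₀ F - e₁ F) (e₀ F - e₁ F)

/-- The adjoint map `(x, y, z)^# = (y z, z x, x y)`. -/
def sh₁ : QuadraticMap F (F × F × F) (F × F × F) :=
  QuadraticMap.ofPolar (fun r => (r.2.1 * r.2.2, r.2.2 * r.1, r.1 * r.2.1))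
    (by intro a x; ext <;> simp <;> ring)
    (by intro x x' y; ext <;> simp [QuadraticMap.polar] <;> ring)
    (by intro a x y; ext <;> simp [QuadraticMap.polar] <;> ring)

theorem sh₁_apply (r : F × F × F) :
    sh₁ F r = (r.2.1 * r.2.2, r.2.2 * r.1, r.1 * r.2.1) := rfl

theorem Δ₁_apply (r q : F × F × F) : Δ₁ F r q = (r.1 - r.2.1) * (q.1 - q.2.1) := rfl

/-- The polarization of `N₁`. -/
def D₁ : F × F × F →ₗ[F] QuadraticForm F (F × F × F) :=
  (e₀ F).smulRight (2 • QuadraticMap.linMulLin (e₀ F) (e₂ F) - QuadraticMap.linMulLin (e₁ F) (e₂ F)) +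
  (e₁ F).smulRight (2 • QuadraticMap.linMulLin (e₁ F) (e₂ F) - QuadraticMap.linMulLin (e₀ F) (e₂ F)) +
  (e₂ F).smulRight (QuadraticMap.linMulLin (e₀ F) (e₀ F) + QuadraticMap.linMulLin (e₁ F) (e₁ F) -
    QuadraticMap.linMulLin (e₀ F) (e₁ F))

theorem D₁_apply (y x : F × F × F) : D₁ F y x =
    y.1 * (2 * (x.1 * x.2.2) - x.2.1 * x.2.2) + y.2.1 * (2 * (x.2.1 * x.2.2) - x.1 * x.2.2) +
      y.2.2 * (x.1 * x.1 + x.2.1 * x.2.1 - x.1 * x.2.1) := by
  simp [D₁, e₀_apply, e₁_apply, e₂_apply, two_mul]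

theorem isCubicForm_N₁ : IsCubicForm (N₁ F) := by
  refine ⟨D₁ F, fun x y l => ?_⟩
  rw [D₁_apply, D₁_apply]
  simp only [N₁, Prod.fst_add, Prod.snd_add, Prod.smul_fst, Prod.smul_snd, smul_eq_mul]
  ring

variable {F}

theorem T_N₁ (h2 : (2 : F) ≠ 0) (r : F × F × F) :
    T (N₁ F) (1, 1, 1) r = r.1 + r.2.1 + r.2.2 := by
  simp only [T, lin, N₁, Prod.fst_add, Prod.snd_add]
  field_simp
  ring

theorem isGSCF (h2 : (2 : F) ≠ 0) : IsGSCF (N₁ F) (Δ₁ F) (sh₁ F) (1, 1, 1) where
  cubic := isCubicForm_N₁ F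
  norm_c := by simp [N₁]
  symm r q := by simp only [Δ₁_apply]; ring
  delta_c r := by simp only [Δ₁_apply]; ring
  trace_sharp r q := by
    simp only [form, T_N₁ h2, S, lin, sprod, sh₁_apply, Δ₁_apply, N₁, Prod.fst_add, Prod.snd_add,
      Prod.fst_sub, Prod.snd_sub]
    field_simp
    ring
  sharp_sharp r := by
    ext <;> simp only [sh₁_apply, Δ₁_apply, N₁, Prod.smul_fst, Prod.smul_snd, smul_eq_mul] <;> ring
  c_sharp r := by
    ext <;> simp only [sprod, sh₁_apply, T_N₁ h2, Prod.fst_add, Prod.snd_add,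
      Prod.fst_sub, Prod.snd_sub, Prod.smul_fst, Prod.smul_snd, smul_eq_mul] <;> ring

end example_

/-- Over every field in which `2` and `3` are invertible there is a generalized sharped cubic form
(on a three-dimensional space) for which the Delta-identity fails. -/
theorem result : ∀ (F : Type*) [Field F], (2 : F) ≠ 0 → (3 : F) ≠ 0 →
    ∃ (N : F × F × F → F) (Δ : LinearMap.BilinForm F (F × F × F))
      (sh : QuadraticMap F (F × F × F) (F × F × F)) (c : F × F × F),
      IsGSCF N Δ sh c ∧ ¬ DeltaIdentity N Δ sh c := by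
  intro F _ h2 h3
  refine ⟨N₁ F, Δ₁ F, sh₁ F, (1, 1, 1), isGSCF h2, fun h => ?_⟩
  have := h (1, 0, 0) (1, 0, 0) (0, 0, 1)
  simp only [T_N₁ h2, sprod, sh₁_apply, Δ₁_apply, Prod.fst_add, Prod.snd_add,
      Prod.fst_sub, Prod.snd_sub] at this
  norm_num at this
  have h1 : (3 : F) = 1 := by
    field_simp at this
    linear_combination this
  apply h2
  linear_combination h1

end Pool.Agent.Results.MP_aa3754_al.DeltaFails
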